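import Pool.Agent.Helper3.AA.Spec

/-! MP_a01ab0_co, part TRI of the swarm of helper3. -/

set_option autoImplicit false

open Real Set

namespace Pool.Agent.Helper83.AA.TRI

open Pool.Agent.Helper3.AA

/-- the final inequality -/
theorem fin_ineq (c n : ℝ) (hc : 0 ≤ c) (hc1 : c ≤ 1) (hn : 0 ≤ n) (h1 : n ^ 2 = 1 - c ^ 2)
    (h2 : 0 ≤ 2 * c ^ 2 - 1) : (1 - c) * (2 * c + 1) ^ 2 ≤ 2 * n * c * (1 + c) := by
  have hA : 0 ≤ (1 - c) * (2 * c + 1) ^ 2 := mul_nonneg (by linarith) (sq_nonneg _)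
  have hB : 0 ≤ 2 * n * c * (1 + c) := by positivity
  rw [← pow_le_pow_iff_left₀ hA hB two_ne_zero]
  have e1 : (2 * n * c * (1 + c)) ^ 2 = 4 * (1 - c ^ 2) * c ^ 2 * (1 + c) ^ 2 := by
    rw [← h1]; ring
  rw [e1]
  have e2 : 4 * (1 - c ^ 2) * c ^ 2 * (1 + c) ^ 2 - ((1 - c) * (2 * c + 1) ^ 2) ^ 2 =
      (1 - c) * ((2 * c ^ 2 - 1) * (10 * c ^ 3 + 14 * c ^ 2 + 7 * c + 1)) := by ring
  have e3 : 0 ≤ (1 - c) * ((2 * c ^ 2 - 1) * (10 * c ^ 3 + 14 * c ^ 2 + 7 * c + 1)) :=
    mul_nonneg (by linarith) (mul_nonneg h2 (by positivity))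
  linarith

/-- the angle `u` -/
theorem one_side {a α : ℝ} (ha : 0 ≤ a) (ha2 : a ≤ π / 2) (hα : 0 < α) (hα2 : α < π / 2) :
    0 ≤ α - arcsin (cos a * sin α) ∧ α - arcsin (cos a * sin α) ≤ a ∧
    sin α * (cos (α - arcsin (cos a * sin α)) - cos a) =
      cos α * sin (α - arcsin (cos a * sin α)) := by
  have hpi := pi_pos
  have hca : 0 ≤ cos a := cos_nonneg_of_neg_pi_div_two_le_of_le (by linarith) ha2
  have hca1 : cos a ≤ 1 := cos_le_one a
  have hsα : 0 < sin α := sin_pos_of_pos_of_lt_pi hα (by linarith)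
  have hcα : 0 < cos α := cos_pos_of_mem_Ioo ⟨by linarith, hα2⟩
  have hsa : 0 ≤ sin a := sin_nonneg_of_nonneg_of_le_pi ha (by linarith)
  have hsα1 : sin α ≤ 1 := sin_le_one α
  have hx0 : 0 ≤ cos a * sin α := mul_nonneg hca hsα.le
  have hx1 : cos a * sin α ≤ 1 := by nlinarith
  have hAα : arcsin (cos a * sin α) ≤ α := by
    calc arcsin (cos a * sin α) ≤ arcsin (sin α) := monotone_arcsin (by nlinarith)
      _ = α := arcsin_sin (by linarith) hα2.le
  have hsA : sin (arcsin (cos a * sin α)) = cos a * sin α := sin_arcsin (by linarith) hx1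
  refine ⟨by linarith, ?_, ?_⟩
  · have h1 : α - a ≤ arcsin (cos a * sin α) := by
      calc α - a = arcsin (sin (α - a)) := (arcsin_sin (by linarith) (by linarith)).symm
        _ ≤ arcsin (cos a * sin α) := by
          refine monotone_arcsin ?_
          rw [sin_sub]
          nlinarith [mul_nonneg hcα.le hsa]
    linarith
  · have h2 : arcsin (cos a * sin α) = α - (α - arcsin (cos a * sin α)) := by ring
    have h3 : sin (α - (α - arcsin (cos a * sin α))) = cos a * sin α := by rw [← h2]; exact hsA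
    rw [sin_sub] at h3
    linarith

theorem pr (X Y : ℝ) : cos (X - Y) - cos (X + Y) = 2 * (sin X * sin Y) := by
  rw [cos_sub, cos_add]; ring

theorem final (c n d : ℝ) (h6 : d * (1 - 2 * n * c) ≤ 1 * (1 - 2 * n * c))
    (h7 : 2 * n * c * (c + d) < d - (4 * c ^ 3 - 3 * c))
    (hF : (1 - c) * (2 * c + 1) ^ 2 ≤ 2 * n * c * (1 + c)) : False := by
  linarith

theorem main : S_TRI := by
  intro a b S α β q ha ha2 hb hb2 haS hbS hα hα2 hβ hβ2 hq hq1 hcc hS
  have hpi := pi_pos
  obtain ⟨hu0, hua, hu⟩ := one_side ha ha2 hα hα2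
  obtain ⟨hv0, hvb, hv⟩ := one_side hb hb2 hβ hβ2
  obtain ⟨u, hud⟩ : ∃ u, u = α - arcsin (cos a * sin α) := ⟨_, rfl⟩
  obtain ⟨v, hvd⟩ : ∃ v, v = β - arcsin (cos b * sin β) := ⟨_, rfl⟩
  rw [← hud] at hu0 hua hu
  rw [← hvd] at hv0 hvb hv
  by_contra hcon
  push Not at hcon
  have hSuv : S < u + v := by rw [hud, hvd]; linarith
  have hsα : 0 < sin α := sin_pos_of_pos_of_lt_pi hα (by linarith)
  have hsβ : 0 < sin β := sin_pos_of_pos_of_lt_pi hβ (by linarith)
  obtain ⟨p, hp⟩ : ∃ p, p = (a - u) / 2 := ⟨_, rfl⟩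
  obtain ⟨r, hr⟩ : ∃ r, r = (b - v) / 2 := ⟨_, rfl⟩
  have ea : a = u + 2 * p := by rw [hp]; ring
  have eb : b = v + 2 * r := by rw [hr]; ring
  have hp0 : 0 ≤ p := by rw [hp]; linarith
  have hr0 : 0 ≤ r := by rw [hr]; linarith
  have hpv : 2 * p < v := by linarith
  have hru : 2 * r < u := by linarith
  have hupos : 0 < u := by linarith
  have hvpos : 0 < v := by linarith
  have hq2 : arcsin q ≤ π / 2 := arcsin_le_pi_div_two q
  have hst : 2 * p + 2 * r < arcsin q := by linarith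
  have hsinst : sin (2 * p + 2 * r) < q :=
    (lt_arcsin_iff_sin_lt' ⟨by linarith, by linarith⟩).1 hst
  have hsu : 0 < sin u := sin_pos_of_pos_of_lt_pi hupos (by linarith)
  have hsv : 0 < sin v := sin_pos_of_pos_of_lt_pi hvpos (by linarith)
  -- the product relation
  have hE3 : (cos u - cos a) * (cos v - cos b) = q * (sin u * sin v) := by
    have h1 : (sin α * (cos u - cos a)) * (sin β * (cos v - cos b)) =
        (cos α * sin u) * (cos β * sin v) := by rw [hu, hv]
    have h2 : (sin α * sin β) * ((cos u - cos a) * (cos v - cos b)) =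
        (sin α * sin β) * (q * (sin u * sin v)) := by
      calc (sin α * sin β) * ((cos u - cos a) * (cos v - cos b)) =
          (sin α * (cos u - cos a)) * (sin β * (cos v - cos b)) := by ring
        _ = (cos α * cos β) * (sin u * sin v) := by rw [h1]; ring
        _ = (sin α * sin β) * (q * (sin u * sin v)) := by rw [hcc]; ring
    exact mul_left_cancel₀ (mul_pos hsα hsβ).ne' h2
  have hcosa : cos u - cos a = 2 * (sin (u + p) * sin p) := by
    have h := pr (u + p) p
    have e1 : u + p - p = u := by ring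
    have e2 : u + p + p = a := by rw [ea]; ring
    rw [e1, e2] at h
    exact h
  have hcosb : cos v - cos b = 2 * (sin (v + r) * sin r) := by
    have h := pr (v + r) r
    have e1 : v + r - r = v := by ring
    have e2 : v + r + r = b := by rw [eb]; ring
    rw [e1, e2] at h
    exact h
  have hE4 : sin u * sin v * sin (2 * p + 2 * r) <
      4 * (sin (u + p) * sin p * (sin (v + r) * sin r)) := by
    have h1 : sin u * sin v * sin (2 * p + 2 * r) < sin u * sin v * q :=
      mul_lt_mul_of_pos_left hsinst (mul_pos hsu hsv)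
    have h2 : 4 * (sin (u + p) * sin p * (sin (v + r) * sin r)) = q * (sin u * sin v) := by
      rw [← hE3, hcosa, hcosb]; ring
    rw [h2]
    linarith
  have hsp : 0 ≤ sin p := sin_nonneg_of_nonneg_of_le_pi hp0 (by linarith)
  have hsr : 0 ≤ sin r := sin_nonneg_of_nonneg_of_le_pi hr0 (by linarith)
  have hcp : 0 < cos p := cos_pos_of_mem_Ioo ⟨by linarith, by linarith⟩
  have hcr : 0 < cos r := cos_pos_of_mem_Ioo ⟨by linarith, by linarith⟩
  have hI1 : sin (u + p) * sin (2 * r) ≤ sin (2 * r + p) * sin u := by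
    have h : sin (2 * r + p) * sin u - sin (u + p) * sin (2 * r) = sin p * sin (u - 2 * r) := by
      rw [sin_add, sin_add u p, sin_sub]; ring
    have h2 : 0 ≤ sin (u - 2 * r) := sin_nonneg_of_nonneg_of_le_pi (by linarith) (by linarith)
    have := mul_nonneg hsp h2
    linarith
  have hI2 : sin (v + r) * sin (2 * p) ≤ sin (2 * p + r) * sin v := by
    have h : sin (2 * p + r) * sin v - sin (v + r) * sin (2 * p) = sin r * sin (v - 2 * p) := by
      rw [sin_add, sin_add v r, sin_sub]; ring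
    have h2 : 0 ≤ sin (v - 2 * p) := sin_nonneg_of_nonneg_of_le_pi (by linarith) (by linarith)
    have := mul_nonneg hsr h2
    linarith
  have hs2p : 0 ≤ sin (2 * p) := sin_nonneg_of_nonneg_of_le_pi (by linarith) (by linarith)
  have hs2r : 0 ≤ sin (2 * r) := sin_nonneg_of_nonneg_of_le_pi (by linarith) (by linarith)
  have hsvr : 0 ≤ sin (v + r) := sin_nonneg_of_nonneg_of_le_pi (by linarith) (by linarith)
  have hsup : 0 ≤ sin (u + p) := sin_nonneg_of_nonneg_of_le_pi (by linarith) (by linarith)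
  have hprod : (sin (u + p) * sin (2 * r)) * (sin (v + r) * sin (2 * p)) ≤
      (sin (2 * r + p) * sin u) * (sin (2 * p + r) * sin v) :=
    mul_le_mul hI1 hI2 (mul_nonneg hsvr hs2p) (le_trans (mul_nonneg hsup hs2r) hI1)
  have hE5 : sin (2 * p + 2 * r) * (cos p * cos r) < sin (2 * r + p) * sin (2 * p + r) := by
    have h1 : sin u * sin v * sin (2 * p + 2 * r) * (cos p * cos r) <
        4 * (sin (u + p) * sin p * (sin (v + r) * sin r)) * (cos p * cos r) :=
      mul_lt_mul_of_pos_right hE4 (mul_pos hcp hcr)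
    have h2 : 4 * (sin (u + p) * sin p * (sin (v + r) * sin r)) * (cos p * cos r) =
        (sin (u + p) * sin (2 * r)) * (sin (v + r) * sin (2 * p)) := by
      rw [sin_two_mul, sin_two_mul]; ring
    rw [h2] at h1
    have h3 : (sin u * sin v) * (sin (2 * p + 2 * r) * (cos p * cos r)) <
        (sin u * sin v) * (sin (2 * r + p) * sin (2 * p + r)) := by
      calc (sin u * sin v) * (sin (2 * p + 2 * r) * (cos p * cos r)) =
          sin u * sin v * sin (2 * p + 2 * r) * (cos p * cos r) := by ring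
        _ < (sin (u + p) * sin (2 * r)) * (sin (v + r) * sin (2 * p)) := h1
        _ ≤ (sin (2 * r + p) * sin u) * (sin (2 * p + r) * sin v) := hprod
        _ = (sin u * sin v) * (sin (2 * r + p) * sin (2 * p + r)) := by ring
    exact lt_of_mul_lt_mul_left h3 (mul_pos hsu hsv).le
  obtain ⟨σ, hσ⟩ : ∃ σ, σ = p + r := ⟨_, rfl⟩
  have k1 : cos p * cos r = (cos σ + cos (r - p)) / 2 := by
    rw [hσ, cos_add, cos_sub]; ring
  have k2 : sin (2 * r + p) * sin (2 * p + r) = (cos (r - p) - cos (3 * σ)) / 2 := by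
    have h := pr (2 * r + p) (2 * p + r)
    have e1 : (2 * r + p) - (2 * p + r) = r - p := by ring
    have e2 : (2 * r + p) + (2 * p + r) = 3 * σ := by rw [hσ]; ring
    rw [e1, e2] at h
    linarith
  have k3 : 2 * p + 2 * r = 2 * σ := by rw [hσ]; ring
  rw [k1, k2, k3] at hE5
  have hσ0 : 0 ≤ σ := by rw [hσ]; linarith
  have hσ1 : 2 * σ ≤ π / 2 := by rw [← k3]; linarith
  have hn : 0 ≤ sin σ := sin_nonneg_of_nonneg_of_le_pi hσ0 (by linarith)
  have hc : 0 ≤ cos σ := cos_nonneg_of_neg_pi_div_two_le_of_le (by linarith) (by linarith)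
  have hc2 : 0 ≤ 2 * cos σ ^ 2 - 1 := by
    rw [← cos_two_mul]
    exact cos_nonneg_of_neg_pi_div_two_le_of_le (by linarith) (by linarith)
  have hF := fin_ineq (cos σ) (sin σ) hc (cos_le_one σ) hn (by linarith [sin_sq_add_cos_sq σ]) hc2
  have hd1 : cos (r - p) ≤ 1 := cos_le_one _
  have hs2 : sin (2 * σ) ≤ 1 := sin_le_one _
  have h6 : cos (r - p) * (1 - sin (2 * σ)) ≤ 1 * (1 - sin (2 * σ)) :=
    mul_le_mul_of_nonneg_right hd1 (by linarith)
  have h7 : sin (2 * σ) * (cos σ + cos (r - p)) < cos (r - p) - cos (3 * σ) := by linarith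
  rw [cos_three_mul] at h7
  rw [sin_two_mul] at h6 h7
  exact final (cos σ) (sin σ) (cos (r - p)) h6 h7 hF

end Pool.Agent.Helper83.AA.TRI
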